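import Mathlib
set_option autoImplicit false

/-!
# A toolkit for first-order definability in commutative rings

`Df c R` says that the relation `R` (a predicate on sequences of elements of the ring `M`, a
relation between the first few terms of the sequence in all applications) is definable by a formula
of the language of rings with parameters `c p`, `p : P`. The instances allow to prove definability
by type class inference.
-/

namespace Pool.Agent.R614

open FirstOrder FirstOrder.Language

/-- the structure of a ring for the language of rings -/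
noncomputable abbrev rs (M : Type) [CommRing M] : Language.ring.Structure M :=
  (Ring.compatibleRingOfRing M).toStructure

/-- `R` is definable with parameters `c p` -/
class Df {M P : Type} [CommRing M] (c : P → M) (R : (ℕ → M) → Prop) : Prop where
  out : ∃ φ : Language.ring.Formula (P ⊕ ℕ), ∀ v : ℕ → M,
    @Formula.Realize _ M (rs M) _ φ (Sum.elim c v) ↔ R v

/-- `t` is a term with parameters `c p` -/
class Tf {M P : Type} [CommRing M] (c : P → M) (t : (ℕ → M) → M) : Prop where
  out : ∃ τ : Language.ring.Term (P ⊕ ℕ), ∀ v : ℕ → M,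
    @Term.realize _ M (rs M) _ (Sum.elim c v) τ = t v

/-- `a` followed by `v` -/
def cns {M : Type} (a : M) (v : ℕ → M) : ℕ → M
  | 0 => a
  | n + 1 => v n

@[simp] theorem cns_zero {M : Type} (a : M) (v : ℕ → M) : cns a v 0 = a := rfl
@[simp] theorem cns_succ {M : Type} (a : M) (v : ℕ → M) (n : ℕ) : cns a v (n + 1) = v n := rfl

section

variable {M P : Type} [CommRing M] {c : P → M}

/-! ### Terms -/

instance tf_var (n : ℕ) : Tf c (fun v => v n) := ⟨⟨Term.var (Sum.inr n), fun _ => rfl⟩⟩

instance tf_par (p : P) : Tf c (fun _ => c p) := ⟨⟨Term.var (Sum.inl p), fun _ => rfl⟩⟩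

instance tf_zero : Tf c (fun _ => 0) := by
  let _ := Ring.compatibleRingOfRing M
  exact ⟨⟨0, fun v => Ring.realize_zero _⟩⟩

instance tf_one : Tf c (fun _ => 1) := by
  let _ := Ring.compatibleRingOfRing M
  exact ⟨⟨1, fun v => Ring.realize_one _⟩⟩

instance tf_add {s t : (ℕ → M) → M} [hs : Tf c s] [ht : Tf c t] : Tf c (fun v => s v + t v) := by
  let _ := Ring.compatibleRingOfRing M
  obtain ⟨σ, hσ⟩ := hs.out
  obtain ⟨τ, hτ⟩ := ht.out
  exact ⟨⟨σ + τ, fun v => by rw [Ring.realize_add]; exact congrArg₂ (· + ·) (hσ v) (hτ v)⟩⟩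

instance tf_mul {s t : (ℕ → M) → M} [hs : Tf c s] [ht : Tf c t] : Tf c (fun v => s v * t v) := by
  let _ := Ring.compatibleRingOfRing M
  obtain ⟨σ, hσ⟩ := hs.out
  obtain ⟨τ, hτ⟩ := ht.out
  exact ⟨⟨σ * τ, fun v => by rw [Ring.realize_mul]; exact congrArg₂ (· * ·) (hσ v) (hτ v)⟩⟩

instance tf_neg {s : (ℕ → M) → M} [hs : Tf c s] : Tf c (fun v => - s v) := by
  let _ := Ring.compatibleRingOfRing M
  obtain ⟨σ, hσ⟩ := hs.out
  exact ⟨⟨-σ, fun v => by rw [Ring.realize_neg]; exact congrArg (- ·) (hσ v)⟩⟩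

instance tf_sub {s t : (ℕ → M) → M} [Tf c s] [Tf c t] : Tf c (fun v => s v - t v) := by
  simp only [sub_eq_add_neg]
  infer_instance

theorem tf_natCast (n : ℕ) : Tf c (fun _ => (n : M)) := by
  induction n with
  | zero => simp only [Nat.cast_zero]; infer_instance
  | succ n ih => simp only [Nat.cast_succ]; infer_instance

instance tf_ofNat (n : ℕ) [n.AtLeastTwo] : Tf c (fun _ => (OfNat.ofNat n : M)) := by
  have := tf_natCast (c := c) (OfNat.ofNat n)
  simpa only [Nat.cast_ofNat] using this

theorem tf_pow {s : (ℕ → M) → M} (hs : Tf c s) (n : ℕ) : Tf c (fun v => s v ^ n) := by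
  induction n with
  | zero => simp only [pow_zero]; infer_instance
  | succ n ih => simp only [pow_succ]; infer_instance

instance tf_pow' {s : (ℕ → M) → M} [hs : Tf c s] (n : ℕ) : Tf c (fun v => s v ^ n) := tf_pow hs n

/-! ### Formulas -/

theorem Df.congr {R S : (ℕ → M) → Prop} (hR : Df c R) (h : ∀ v, R v ↔ S v) : Df c S := by
  obtain ⟨φ, hφ⟩ := hR.out
  exact ⟨⟨φ, fun v => (hφ v).trans (h v)⟩⟩

instance df_eq {s t : (ℕ → M) → M} [hs : Tf c s] [ht : Tf c t] : Df c (fun v => s v = t v) := by
  obtain ⟨σ, hσ⟩ := hs.out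
  obtain ⟨τ, hτ⟩ := ht.out
  refine ⟨⟨σ.equal τ, fun v => ?_⟩⟩
  rw [@Formula.realize_equal _ M (rs M), hσ, hτ]

instance df_false : Df c (fun _ => False) :=
  ⟨⟨⊥, fun _ => @Formula.realize_bot _ M (rs M) _ _⟩⟩

instance df_imp {R S : (ℕ → M) → Prop} [hR : Df c R] [hS : Df c S] :
    Df c (fun v => R v → S v) := by
  obtain ⟨φ, hφ⟩ := hR.out
  obtain ⟨ψ, hψ⟩ := hS.out
  refine ⟨⟨φ.imp ψ, fun v => ?_⟩⟩
  rw [@Formula.realize_imp _ M (rs M), hφ, hψ]

instance df_not {R : (ℕ → M) → Prop} [hR : Df c R] : Df c (fun v => ¬ R v) :=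
  df_imp (S := fun _ => False)

instance df_and {R S : (ℕ → M) → Prop} [hR : Df c R] [hS : Df c S] :
    Df c (fun v => R v ∧ S v) :=
  Df.congr (R := fun v => ¬ (R v → ¬ S v)) inferInstance fun v => by tauto

instance df_or {R S : (ℕ → M) → Prop} [hR : Df c R] [hS : Df c S] :
    Df c (fun v => R v ∨ S v) :=
  Df.congr (R := fun v => ¬ R v → S v) inferInstance fun v => by tauto

instance df_iff {R S : (ℕ → M) → Prop} [hR : Df c R] [hS : Df c S] :
    Df c (fun v => R v ↔ S v) :=
  Df.congr (R := fun v => (R v → S v) ∧ (S v → R v)) inferInstance fun v => by tauto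

/-- variable shift used for quantification -/
def shft : P ⊕ ℕ → (P ⊕ ℕ) ⊕ Fin 1
  | .inl p => .inl (.inl p)
  | .inr 0 => .inr 0
  | .inr (n + 1) => .inl (.inr n)

/-- universal quantification over variable `0`, shifting the others down -/
def qall (φ : Language.ring.Formula (P ⊕ ℕ)) : Language.ring.Formula (P ⊕ ℕ) :=
  (BoundedFormula.relabel (n := 1) (shft (P := P)) φ : Language.ring.BoundedFormula (P ⊕ ℕ) 1).all

theorem realize_qall (φ : Language.ring.Formula (P ⊕ ℕ)) (p : P → M) (v : ℕ → M) :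
    @Formula.Realize _ M (rs M) _ (qall φ) (Sum.elim p v) ↔
      ∀ a : M, @Formula.Realize _ M (rs M) _ φ (Sum.elim p (cns a v)) := by
  let _ := rs M
  unfold qall Formula.Realize
  rw [BoundedFormula.realize_all]
  refine forall_congr' fun a => ?_
  rw [BoundedFormula.realize_relabel]
  have h1 : (Sum.elim (Sum.elim p v) ((Fin.snoc default a : Fin 1 → M) ∘ Fin.castAdd 0) ∘ shft)
      = Sum.elim p (cns a v) := by
    funext s
    rcases s with p' | n
    · rfl
    · cases n with
      | zero => rfl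
      | succ n => rfl
  rw [h1]
  have h2 : ((Fin.snoc default a : Fin 1 → M) ∘ Fin.natAdd 1 : Fin 0 → M) = default :=
    Subsingleton.elim _ _
  exact iff_of_eq (congrArg (BoundedFormula.Realize φ (Sum.elim p (cns a v))) h2)

instance df_all {S : M → (ℕ → M) → Prop} [hR : Df c (fun v => S (v 0) (fun n => v (n + 1)))] :
    Df c (fun v => ∀ a, S a v) := by
  obtain ⟨φ, hφ⟩ := hR.out
  refine ⟨⟨qall φ, fun v => ?_⟩⟩
  rw [realize_qall]
  refine forall_congr' fun a => ?_
  rw [hφ]
  simp

instance df_ex {S : M → (ℕ → M) → Prop} [hR : Df c (fun v => S (v 0) (fun n => v (n + 1)))] :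
    Df c (fun v => ∃ a, S a v) :=
  Df.congr (R := fun v => ¬ ∀ a, ¬ S a v) (df_not (hR := df_all (S := fun a v => ¬ S a v)
    (hR := df_not (hR := hR)))) fun v => by push Not; rfl

/-- substitution of terms for the variables -/
theorem df_subst {R : (ℕ → M) → Prop} (hR : Df c R) (t : ℕ → (ℕ → M) → M) (ht : ∀ n, Tf c (t n)) :
    Df c (fun v => R (fun n => t n v)) := by
  obtain ⟨φ, hφ⟩ := hR.out
  choose τ hτ using fun n => (ht n).out
  refine ⟨⟨φ.subst (Sum.elim (fun p => Term.var (Sum.inl p)) τ), fun v => ?_⟩⟩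
  rw [← hφ]
  unfold Formula.Realize
  rw [@BoundedFormula.realize_subst _ M (rs M)]
  have h1 : (fun a : P ⊕ ℕ => @Term.realize _ M (rs M) _ (Sum.elim c v)
      ((Sum.elim (fun p => Term.var (Sum.inl p)) τ : P ⊕ ℕ → Language.ring.Term (P ⊕ ℕ)) a)) =
      Sum.elim c (fun n => t n v) := by
    funext a
    rcases a with p | n
    · rfl
    · exact hτ n v
  rw [h1]

theorem df_app1 {R : M → Prop} (hR : Df c (fun v => R (v 0))) (s : (ℕ → M) → M) [Tf c s] :
    Df c (fun v => R (s v)) :=
  df_subst hR (fun n => match n with | 0 => s | _ => fun v => v 0) (fun n => by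
    match n with
    | 0 => infer_instance
    | n + 1 => exact tf_var 0)

theorem df_app2 {R : M → M → Prop} (hR : Df c (fun v => R (v 0) (v 1))) (s t : (ℕ → M) → M)
    [Tf c s] [Tf c t] : Df c (fun v => R (s v) (t v)) :=
  df_subst hR (fun n => match n with | 0 => s | 1 => t | _ => fun v => v 0) (fun n => by
    match n with
    | 0 => infer_instance
    | 1 => infer_instance
    | n + 2 => exact tf_var 0)

theorem df_app3 {R : M → M → M → Prop} (hR : Df c (fun v => R (v 0) (v 1) (v 2)))
    (s t u : (ℕ → M) → M) [Tf c s] [Tf c t] [Tf c u] : Df c (fun v => R (s v) (t v) (u v)) :=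
  df_subst hR (fun n => match n with | 0 => s | 1 => t | 2 => u | _ => fun v => v 0) (fun n => by
    match n with
    | 0 => infer_instance
    | 1 => infer_instance
    | 2 => infer_instance
    | n + 3 => exact tf_var 0)

theorem df_app4 {R : M → M → M → M → Prop} (hR : Df c (fun v => R (v 0) (v 1) (v 2) (v 3)))
    (s t u w : (ℕ → M) → M) [Tf c s] [Tf c t] [Tf c u] [Tf c w] :
    Df c (fun v => R (s v) (t v) (u v) (w v)) :=
  df_subst hR (fun n => match n with | 0 => s | 1 => t | 2 => u | 3 => w | _ => fun v => v 0)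
    (fun n => by
    match n with
    | 0 => infer_instance
    | 1 => infer_instance
    | 2 => infer_instance
    | 3 => infer_instance
    | n + 4 => exact tf_var 0)

/-! ### Divisibility and units -/

instance df_dvd {s t : (ℕ → M) → M} [Tf c s] [Tf c t] : Df c (fun v => s v ∣ t v) := by
  have h : Df c (fun v => v 0 ∣ v 1) :=
    Df.congr (R := fun v => ∃ a, v 1 = v 0 * a) inferInstance fun v => Iff.rfl
  exact df_app2 h s t

instance df_isUnit {s : (ℕ → M) → M} [Tf c s] : Df c (fun v => IsUnit (s v)) := by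
  have h : Df c (fun v => IsUnit (v 0)) :=
    Df.congr (R := fun v => ∃ a, v 0 * a = 1) inferInstance fun v =>
      ⟨fun ⟨a, ha⟩ => IsUnit.of_mul_eq_one a ha, fun h => h.exists_right_inv⟩
  exact df_app1 h s

/-! ### Definability in the sense of Mathlib -/

theorem definable₂_of_df {A : Set M} {R : M → M → Prop}
    (h : Df (fun p : A => (p : M)) (fun v => R (v 0) (v 1))) :
    @Set.Definable₂ M A Language.ring (rs M) {p : M × M | R p.1 p.2} := by
  let _ := rs M
  obtain ⟨φ, hφ⟩ := h.out
  rw [Set.Definable₂, Set.definable_iff_exists_formula_sum]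
  refine ⟨φ.relabel (Sum.map id (fun n => if n = 0 then 0 else 1)), ?_⟩
  ext x
  show R (x 0) (x 1) ↔ Formula.Realize (φ.relabel (Sum.map id (fun n => if n = 0 then (0 : Fin 2)
    else 1))) (Sum.elim (fun p : A => (p : M)) x)
  rw [Formula.realize_relabel]
  have h1 : (Sum.elim (fun p : A => (p : M)) x ∘ Sum.map id (fun n => if n = 0 then (0 : Fin 2)
      else 1)) = Sum.elim (fun p : A => (p : M)) (fun n => if n = 0 then x 0 else x 1) := by
    funext s
    rcases s with p | n
    · rfl
    · by_cases hn : n = 0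
      · simp [hn]
      · simp [hn]
  rw [h1, hφ]
  rfl

theorem formula_of_df {R : M → Prop} {P : Type} [IsEmpty P] {c : P → M}
    (h : Df c (fun v => R (v 0))) :
    ∃ φ : Language.ring.Formula (Fin 1), ∀ x : M, @Formula.Realize _ M (rs M) _ φ (fun _ => x) ↔
      R x := by
  let _ := rs M
  obtain ⟨φ, hφ⟩ := h.out
  refine ⟨φ.relabel (Sum.elim (fun p => (IsEmpty.false p).elim) (fun _ => 0)), fun x => ?_⟩
  rw [Formula.realize_relabel]
  have h1 : ((fun _ : Fin 1 => x) ∘ Sum.elim (fun p : P => ((IsEmpty.false p).elim : Fin 1))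
      (fun _ : ℕ => (0 : Fin 1))) = Sum.elim c (fun _ => x) := by
    funext s
    rcases s with p | n
    · exact (IsEmpty.false p).elim
    · rfl
  rw [h1]
  exact hφ (fun _ => x)

end


end Pool.Agent.R614
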